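import Mathlib
import Pool.Agent.H938R2.JC.Line

/-! Statements of the parts of the five-monomials theorem for plane Keller maps. -/

set_option autoImplicit false

open MvPolynomial Pool.Agent.H938R2.JC

namespace Pool.Agent.W443.J5

universe u

/-- The part of weight `d` of `f`, for the weights `w0, w1`. -/
noncomputable def part {k : Type u} [Field k] (w0 w1 d : ℤ) (f : MvPolynomial (Fin 2) k) :
    MvPolynomial (Fin 2) k :=
  ∑ m ∈ f.support.filter (fun m => w0 * (m 0 : ℤ) + w1 * (m 1 : ℤ) = d), monomial m (coeff m f)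

/-- Two weighted homogeneous polynomials of the same nonzero weight with zero Jacobian are
proportional. -/
def S_P1 : Prop :=
  ∀ (k : Type u) [Field k] [CharZero k] (F G : MvPolynomial (Fin 2) k) (w0 w1 D : ℤ), D ≠ 0 →
    (∀ m, coeff m F ≠ 0 → w0 * (m 0 : ℤ) + w1 * (m 1 : ℤ) = D) →
    (∀ m, coeff m G ≠ 0 → w0 * (m 0 : ℤ) + w1 * (m 1 : ℤ) = D) →
    J F G = 0 → G ≠ 0 → ∃ c : k, F = C c * G

/-- Coprime powers. -/
def S_P2 : Prop :=
  ∀ (k : Type u) [Field k] [CharZero k] (F H : MvPolynomial (Fin 2) k) (c : k) (s t : ℕ), c ≠ 0 →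
    1 ≤ s → Nat.Coprime s t → F ≠ 0 → F ^ t = C c * H ^ s →
    ∃ (κ : k) (R : MvPolynomial (Fin 2) k), κ ≠ 0 ∧ F = C κ * R ^ s

/-- The leading forms of a component of a Jacobian pair which does not generate the polynomial
ring are proper powers, up to a constant. -/
def S_POW : Prop :=
  ∀ (k : Type u) [Field k] [CharZero k] (f g : MvPolynomial (Fin 2) k) (c : k), J f g = C c →
    c ≠ 0 → ¬ Good f g → ∀ w0 w1 d : ℤ, (0 < w0 ∨ 0 < w1) →
    (∀ m, coeff m f ≠ 0 → w0 * (m 0 : ℤ) + w1 * (m 1 : ℤ) ≤ d) →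
    (∃ m, coeff m f ≠ 0 ∧ w0 * (m 0 : ℤ) + w1 * (m 1 : ℤ) = d) →
    ∃ (κ : k) (R : MvPolynomial (Fin 2) k) (s : ℕ), κ ≠ 0 ∧ 2 ≤ s ∧
      part w0 w1 d f = C κ * R ^ s

/-- Numbers of terms of powers of univariate polynomials. -/
def S_UNI : Prop :=
  ∀ (k : Type u) [Field k] [CharZero k] (κ : k) (ρ : Polynomial k) (s : ℕ), κ ≠ 0 → 2 ≤ s →
    (2 ≤ (Polynomial.C κ * ρ ^ s).support.card → 3 ≤ (Polynomial.C κ * ρ ^ s).support.card) ∧
    ((Polynomial.C κ * ρ ^ s).support.card = 3 → (Polynomial.C κ * ρ ^ s).coeff 0 ≠ 0 →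
      ∃ (l m : k) (q : ℕ), l ≠ 0 ∧ m ≠ 0 ∧ 1 ≤ q ∧
        Polynomial.C κ * ρ ^ s =
          Polynomial.C κ * (Polynomial.C l + Polynomial.C m * Polynomial.X ^ q) ^ 2)

/-- Critical points, the case of the additional monomial `y`. -/
def S_C2 : Prop :=
  ∀ (K : Type u) [Field K] [IsAlgClosed K] [CharZero K] (α γ κ l m : K) (p q : ℕ), α ≠ 0 →
    γ ≠ 0 → κ ≠ 0 → l ≠ 0 → m ≠ 0 → 1 ≤ p → 2 ≤ q → p ≠ q →
    ∃ x y : K, α + 2 * κ * l * p * x ^ (p - 1) * (l * x ^ p + m * y ^ q) = 0 ∧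
      γ + 2 * κ * m * q * y ^ (q - 1) * (l * x ^ p + m * y ^ q) = 0

/-- Critical points, the case of the additional monomial `x ^ a y` with `a ≥ 1`. -/
def S_C3 : Prop :=
  ∀ (K : Type u) [Field K] [IsAlgClosed K] [CharZero K] (α γ κ l m : K) (a p q : ℕ), α ≠ 0 →
    γ ≠ 0 → κ ≠ 0 → l ≠ 0 → m ≠ 0 → 1 ≤ a → 1 ≤ p → 2 ≤ q → q * a + p < 2 * p * q →
    ∃ x y : K,
      α + a * γ * x ^ (a - 1) * y + 2 * κ * l * p * x ^ (p - 1) * (l * x ^ p + m * y ^ q) = 0 ∧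
      γ * x ^ a + 2 * κ * m * q * y ^ (q - 1) * (l * x ^ p + m * y ^ q) = 0

end Pool.Agent.W443.J5
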