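import Mathlib
import Pool.Agent.W443.J5.Stms
import Pool.Agent.H938R2.JC.TwoPieces

/-! The shape of a component with at most five nonconstant monomials. -/

set_option autoImplicit false

open MvPolynomial Pool.Agent.H938R2.JC

namespace Pool.Agent.W443.J5

universe u

variable {k : Type u} [Field k]

theorem coeff_part (w0 w1 d : ℤ) (f : MvPolynomial (Fin 2) k) (n : Fin 2 →₀ ℕ) :
    coeff n (part w0 w1 d f) =
      if w0 * (n 0 : ℤ) + w1 * (n 1 : ℤ) = d then coeff n f else 0 := by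
  classical
  unfold part
  rw [coeff_sum]
  simp only [coeff_monomial]
  rw [Finset.sum_ite_eq']
  by_cases h : w0 * (n 0 : ℤ) + w1 * (n 1 : ℤ) = d
  · simp only [Finset.mem_filter, h, and_true, mem_support_iff, if_true]
    by_cases h2 : coeff n f = 0
    · simp [h2]
    · simp [h2]
  · simp [h]

/-- the dehomogenization of the part has the same number of terms. -/
theorem dh_part_support {w0 w1 d : ℤ} (hw0 : w0 ≠ 0) (f : MvPolynomial (Fin 2) k) :
    (dh (part w0 w1 d f)).support =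
      (f.support.filter (fun m => w0 * (m 0 : ℤ) + w1 * (m 1 : ℤ) = d)).image (fun m => m 1) := by
  classical
  ext v
  rw [Polynomial.mem_support_iff, Finset.mem_image]
  have h1 : (dh (part w0 w1 d f)).coeff v =
      ∑ m ∈ f.support.filter (fun m => w0 * (m 0 : ℤ) + w1 * (m 1 : ℤ) = d),
        (if m 1 = v then coeff m f else 0) := by
    unfold part
    rw [map_sum, Polynomial.finset_sum_coeff]
    apply Finset.sum_congr rfl
    intro m _
    rw [dh_monomial, Polynomial.coeff_monomial]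
  rw [h1]
  constructor
  · intro h
    obtain ⟨m, hm, hne⟩ := Finset.exists_ne_zero_of_sum_ne_zero h
    refine ⟨m, hm, ?_⟩
    by_contra hcon
    rw [if_neg hcon] at hne
    exact hne rfl
  · rintro ⟨m, hm, rfl⟩
    rw [Finset.sum_eq_single m]
    · rw [if_pos rfl]
      exact mem_support_iff.1 (Finset.mem_filter.1 hm).1
    · intro m' hm' hne
      rw [if_neg]
      intro heq
      apply hne
      have h2 := (Finset.mem_filter.1 hm).2
      have h3 := (Finset.mem_filter.1 hm').2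
      rw [heq] at h3
      have h4 : w0 * ((m' 0 : ℤ) - (m 0 : ℤ)) = 0 := by linarith
      rcases mul_eq_zero.1 h4 with h5 | h5
      · exact absurd h5 hw0
      · rw [ext_iff']
        exact ⟨by omega, heq⟩
    · intro h
      exact absurd hm h

theorem dh_part_card {w0 w1 d : ℤ} (hw0 : w0 ≠ 0) (f : MvPolynomial (Fin 2) k) :
    (dh (part w0 w1 d f)).support.card =
      (f.support.filter (fun m => w0 * (m 0 : ℤ) + w1 * (m 1 : ℤ) = d)).card := by
  classical
  rw [dh_part_support hw0, Finset.card_image_of_injOn]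
  intro m hm m' hm' heq
  have h2 := (Finset.mem_filter.1 hm).2
  have h3 := (Finset.mem_filter.1 hm').2
  simp only at heq
  rw [heq] at h2
  have h4 : w0 * ((m 0 : ℤ) - (m' 0 : ℤ)) = 0 := by linarith
  rcases mul_eq_zero.1 h4 with h5 | h5
  · exact absurd h5 hw0
  · rw [ext_iff']
    exact ⟨by omega, heq⟩

variable [CharZero k]

theorem dh_pow {h R : MvPolynomial (Fin 2) k} {κ : k} {s : ℕ} (hh : h = C κ * R ^ s) :
    dh h = Polynomial.C κ * (dh R) ^ s := by
  rw [hh, map_mul, map_pow, algHom_C]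
  rfl

/-- At least three monomials on an edge. -/
theorem three_on_edge (hPOW : S_POW.{u}) (hUNI : S_UNI.{u}) {f g : MvPolynomial (Fin 2) k} {c : k}
    (hJ : J f g = C c) (hc : c ≠ 0) (hng : ¬ Good f g) {w0 w1 d : ℤ} (hw0 : 0 < w0)
    (hle : ∀ m, coeff m f ≠ 0 → w0 * (m 0 : ℤ) + w1 * (m 1 : ℤ) ≤ d)
    (h2 : 2 ≤ (f.support.filter (fun m => w0 * (m 0 : ℤ) + w1 * (m 1 : ℤ) = d)).card) :
    3 ≤ (f.support.filter (fun m => w0 * (m 0 : ℤ) + w1 * (m 1 : ℤ) = d)).card := by
  have hne : ∃ m, coeff m f ≠ 0 ∧ w0 * (m 0 : ℤ) + w1 * (m 1 : ℤ) = d := by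
    obtain ⟨m, hm⟩ : (f.support.filter
        (fun m => w0 * (m 0 : ℤ) + w1 * (m 1 : ℤ) = d)).Nonempty := by
      rw [← Finset.card_pos]; omega
    have := Finset.mem_filter.1 hm
    exact ⟨m, mem_support_iff.1 this.1, this.2⟩
  obtain ⟨κ, R, s, hκ, hs, hpart⟩ := hPOW k f g c hJ hc hng w0 w1 d (Or.inl hw0) hle hne
  have h3 := (hUNI k κ (dh R) s hκ hs).1
  rw [← dh_pow hpart, dh_part_card hw0.ne'] at h3
  exact h3 h2

/-- The first edge. -/
theorem first_edge (hPOW : S_POW.{u}) (hUNI : S_UNI.{u}) {f g : MvPolynomial (Fin 2) k} {c : k}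
    (hJ : J f g = C c) (hc : c ≠ 0) (hng : ¬ Good f g) :
    ∃ i a b : ℕ, 2 ≤ i ∧ 1 ≤ b ∧ coeff (e i 0) f ≠ 0 ∧
      (∀ m, coeff m f ≠ 0 → (b : ℤ) * (m 0 : ℤ) + ((i : ℤ) - a) * (m 1 : ℤ) ≤ b * i) ∧
      3 ≤ (f.support.filter
        (fun m => (b : ℤ) * (m 0 : ℤ) + ((i : ℤ) - a) * (m 1 : ℤ) = b * i)).card := by
  classical
  obtain ⟨i0, hi0, hi0'⟩ : ∃ i, 2 ≤ i ∧ coeff (e i 0) f ≠ 0 := by
    by_contra hcon
    push Not at hcon
    exact hng (line hJ hc hcon)
  obtain ⟨j0, hj0, hj0'⟩ : ∃ i, 2 ≤ i ∧ coeff (e 0 i) f ≠ 0 := by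
    by_contra hcon
    push Not at hcon
    exact hng (line' hJ hc hcon)
  -- the largest pure power
  have hAne : (f.support.filter (fun m => m 1 = 0)).Nonempty :=
    ⟨e i0 0, Finset.mem_filter.2 ⟨mem_support_iff.2 hi0', by simp⟩⟩
  obtain ⟨mi, hmi, hmax⟩ := Finset.exists_max_image _ (fun m => m 0) hAne
  have hmi' := Finset.mem_filter.1 hmi
  set i := mi 0 with hi
  have hie : mi = e i 0 := by rw [ext_iff']; simp [hmi'.2, hi]
  have hi2 : 2 ≤ i := by
    have := hmax (e i0 0) (Finset.mem_filter.2 ⟨mem_support_iff.2 hi0', by simp⟩)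
    simp only [e_zero] at this
    omega
  have hif : coeff (e i 0) f ≠ 0 := by rw [← hie]; exact mem_support_iff.1 hmi'.1
  -- the first direction
  have hVne : (f.support.filter (fun m => 1 ≤ m 1)).Nonempty :=
    ⟨e 0 j0, Finset.mem_filter.2 ⟨mem_support_iff.2 hj0', by simp; omega⟩⟩
  obtain ⟨mb, hmb, hmin⟩ := Finset.exists_min_image _
    (fun m : Fin 2 →₀ ℕ => (((i : ℚ) - (m 0 : ℚ)) / (m 1 : ℚ))) hVne
  have hmb' := Finset.mem_filter.1 hmb
  refine ⟨i, mb 0, mb 1, hi2, hmb'.2, hif, ?_, ?_⟩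
  · intro m hm
    rcases Nat.eq_zero_or_pos (m 1) with h0 | hpos
    · rw [h0]
      have h1 := hmax m (Finset.mem_filter.2 ⟨mem_support_iff.2 hm, h0⟩)
      have h2 : (m 0 : ℤ) ≤ i := by exact_mod_cast h1
      have h3 : (0 : ℤ) ≤ (mb 1 : ℤ) := by positivity
      have := mul_le_mul_of_nonneg_left h2 h3
      push_cast
      linarith
    · have h1 := hmin m (Finset.mem_filter.2 ⟨mem_support_iff.2 hm, hpos⟩)
      have hb : (0 : ℚ) < (mb 1 : ℚ) := by exact_mod_cast hmb'.2
      have hm1 : (0 : ℚ) < (m 1 : ℚ) := by exact_mod_cast hpos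
      rw [div_le_div_iff₀ hb hm1] at h1
      have h2 : ((i : ℤ) - (mb 0 : ℤ)) * (m 1 : ℤ) ≤ ((i : ℤ) - (m 0 : ℤ)) * (mb 1 : ℤ) := by
        exact_mod_cast h1
      linarith
  · apply three_on_edge hPOW hUNI hJ hc hng (by exact_mod_cast hmb'.2)
    · intro m hm
      rcases Nat.eq_zero_or_pos (m 1) with h0 | hpos
      · rw [h0]
        have h1 := hmax m (Finset.mem_filter.2 ⟨mem_support_iff.2 hm, h0⟩)
        have h2 : (m 0 : ℤ) ≤ i := by exact_mod_cast h1
        have h3 : (0 : ℤ) ≤ (mb 1 : ℤ) := by positivity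
        have := mul_le_mul_of_nonneg_left h2 h3
        push_cast
        linarith
      · have h1 := hmin m (Finset.mem_filter.2 ⟨mem_support_iff.2 hm, hpos⟩)
        have hb : (0 : ℚ) < (mb 1 : ℚ) := by exact_mod_cast hmb'.2
        have hm1 : (0 : ℚ) < (m 1 : ℚ) := by exact_mod_cast hpos
        rw [div_le_div_iff₀ hb hm1] at h1
        have h2 : ((i : ℤ) - (mb 0 : ℤ)) * (m 1 : ℤ) ≤ ((i : ℤ) - (m 0 : ℤ)) * (mb 1 : ℤ) := by
          exact_mod_cast h1
        linarith
    · have hsub : ({e i 0, mb} : Finset (Fin 2 →₀ ℕ)) ⊆ f.support.filter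
          (fun m => (mb 1 : ℤ) * (m 0 : ℤ) + ((i : ℤ) - (mb 0 : ℕ)) * (m 1 : ℤ) = (mb 1 : ℤ) * i) := by
        intro m hm
        simp only [Finset.mem_insert, Finset.mem_singleton] at hm
        rw [Finset.mem_filter, mem_support_iff]
        rcases hm with rfl | rfl
        · refine ⟨hif, ?_⟩
          simp
        · refine ⟨mem_support_iff.1 hmb'.1, ?_⟩
          ring
      have hne : e i 0 ≠ mb := by
        intro h
        have h1 := hmb'.2
        rw [← h] at h1
        simp at h1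
      have := Finset.card_le_card hsub
      rw [Finset.card_pair hne] at this
      exact this

end Pool.Agent.W443.J5
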