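import Mathlib
import Pool.Agent.W443.J5.Shape

/-! The shape of a component with at most five nonconstant monomials, II. -/

set_option autoImplicit false

open MvPolynomial Pool.Agent.H938R2.JC

namespace Pool.Agent.W443.J5

universe u

variable {k : Type u} [Field k] [CharZero k]

theorem not_good_sw {f g : MvPolynomial (Fin 2) k} (h : ¬ Good f g) : ¬ Good (sw f) (sw g) :=
  fun h' => h (Good.of_equiv sw h')

theorem J_sw_C {f g : MvPolynomial (Fin 2) k} {c : k} (hJ : J f g = C c) :
    J (sw f) (sw g) = C (-c) := by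
  rw [J_sw, hJ, C_neg]
  congr 1
  have : (sw : MvPolynomial (Fin 2) k ≃ₐ[k] MvPolynomial (Fin 2) k) (algebraMap k _ c) =
    algebraMap k _ c := AlgEquiv.commutes _ c
  exact this

/-- The Newton polygon: with at most five nonconstant monomials all monomials lie below the
segment from `(i, 0)` to `(0, j)`, with at least three on it. -/
theorem single_edge (hPOW : S_POW.{u}) (hUNI : S_UNI.{u}) {f g : MvPolynomial (Fin 2) k} {c : k}
    (hJ : J f g = C c) (hc : c ≠ 0) (hng : ¬ Good f g) (hx : coeff (e 1 0) f ≠ 0)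
    (hcard : (f.support.erase 0).card ≤ 5) :
    ∃ i j : ℕ, 2 ≤ i ∧ 2 ≤ j ∧ coeff (e i 0) f ≠ 0 ∧ coeff (e 0 j) f ≠ 0 ∧
      (∀ m, coeff m f ≠ 0 → (j : ℤ) * (m 0 : ℤ) + (i : ℤ) * (m 1 : ℤ) ≤ i * j) ∧
      3 ≤ (f.support.filter
        (fun m => (j : ℤ) * (m 0 : ℤ) + (i : ℤ) * (m 1 : ℤ) = i * j)).card := by
  classical
  obtain ⟨i, a, b, hi, hb, hif, hle, h3⟩ := first_edge hPOW hUNI hJ hc hng
  obtain ⟨j, a', b', hj, hb', hjf, hle', h3'⟩ := first_edge hPOW hUNI (J_sw_C hJ)
    (neg_ne_zero.2 hc) (not_good_sw hng)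
  rw [coeff_sw] at hjf
  have hb1 : (1 : ℤ) ≤ (b : ℤ) := by exact_mod_cast hb
  have hb1' : (1 : ℤ) ≤ (b' : ℤ) := by exact_mod_cast hb'
  have hi1 : (2 : ℤ) ≤ (i : ℤ) := by exact_mod_cast hi
  have hj1 : (2 : ℤ) ≤ (j : ℤ) := by exact_mod_cast hj
  -- the second edge in the original coordinates
  have hsw : ∀ m : Fin 2 →₀ ℕ, coeff m (sw f) = coeff (e (m 1) (m 0)) f := by
    intro m
    conv_lhs => rw [eq_e m]
    rw [coeff_sw]
  have hle2 : ∀ m, coeff m f ≠ 0 → ((j : ℤ) - a') * (m 0 : ℤ) + (b' : ℤ) * (m 1 : ℤ) ≤ b' * j := by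
    intro m hm
    have h1 := hle' (e (m 1) (m 0)) (by rw [coeff_sw, ← eq_e]; exact hm)
    simp only [e_zero, e_one] at h1
    linarith
  have h32 : 3 ≤ (f.support.filter
      (fun m => ((j : ℤ) - a') * (m 0 : ℤ) + (b' : ℤ) * (m 1 : ℤ) = b' * j)).card := by
    refine h3'.trans ?_
    refine Finset.card_le_card_of_injOn (fun m => e (m 1) (m 0)) ?_ ?_
    · intro m hm
      have hm' := Finset.mem_filter.1 (Finset.mem_coe.1 hm)
      refine Finset.mem_coe.2 (Finset.mem_filter.2 ⟨?_, ?_⟩)
      · rw [mem_support_iff, ← hsw]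
        exact mem_support_iff.1 hm'.1
      · simp only [e_zero, e_one]
        linarith [hm'.2]
    · intro m _ m' _ h
      rw [e_inj] at h
      rw [ext_iff']
      exact ⟨h.2, h.1⟩
  set E1 := f.support.filter
    (fun m => (b : ℤ) * (m 0 : ℤ) + ((i : ℤ) - a) * (m 1 : ℤ) = b * i) with hE1
  set E2 := f.support.filter
    (fun m => ((j : ℤ) - a') * (m 0 : ℤ) + (b' : ℤ) * (m 1 : ℤ) = b' * j) with hE2
  -- `(0, j)` lies on the first edge
  have key : ((i : ℤ) - a) * j = b * i := by
    by_contra hcon
    have hj0 : e 0 j ∉ E1 := by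
      intro h
      have := (Finset.mem_filter.1 h).2
      simp only [e_zero, e_one] at this
      apply hcon
      push_cast at this
      linarith
    have h10 : e 1 0 ∉ E1 := by
      intro h
      have := (Finset.mem_filter.1 h).2
      simp only [e_zero, e_one] at this
      push_cast at this
      nlinarith
    have h102 : e 1 0 ∉ E2 := by
      intro h
      have h1 := (Finset.mem_filter.1 h).2
      simp only [e_zero, e_one] at h1
      have h2 := hle2 _ hif
      simp only [e_zero, e_one] at h2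
      push_cast at h1 h2
      have h5 : ((j : ℤ) - a') = b' * j := by linarith
      rw [h5] at h2
      have h4 : 0 < (b' : ℤ) * j := mul_pos (by linarith) (by linarith)
      have h6 := mul_le_mul_of_nonneg_left hi1 h4.le
      linarith
    have hT : insert (e 1 0) (insert (e 0 j) E1) = f.support.erase 0 := by
      apply Finset.eq_of_subset_of_card_le
      · intro m hm
        rw [Finset.mem_insert, Finset.mem_insert] at hm
        rw [Finset.mem_erase, mem_support_iff]
        rcases hm with rfl | rfl | hm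
        · refine ⟨?_, hx⟩
          intro h
          have := DFunLike.congr_fun h 0
          simp at this
        · refine ⟨?_, hjf⟩
          intro h
          have := DFunLike.congr_fun h 1
          simp at this
          omega
        · have h1 := Finset.mem_filter.1 hm
          refine ⟨?_, mem_support_iff.1 h1.1⟩
          rintro rfl
          have h2 := h1.2
          simp only [Finsupp.coe_zero, Pi.zero_apply, Nat.cast_zero, mul_zero, add_zero] at h2
          nlinarith
      · rw [Finset.card_insert_of_notMem, Finset.card_insert_of_notMem hj0]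
        · omega
        · rw [Finset.mem_insert]
          rintro (h | h)
          · rw [e_inj] at h
            omega
          · exact h10 h
    have hsub : E2.erase (e 0 j) ⊆ E1 := by
      intro m hm
      have h1 := Finset.mem_erase.1 hm
      have h2 := Finset.mem_filter.1 h1.2
      have h3 : m ∈ f.support.erase 0 := by
        refine Finset.mem_erase.2 ⟨?_, h2.1⟩
        rintro rfl
        have h4 := h2.2
        simp only [Finsupp.coe_zero, Pi.zero_apply, Nat.cast_zero, mul_zero, add_zero] at h4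
        nlinarith
      rw [← hT, Finset.mem_insert, Finset.mem_insert] at h3
      rcases h3 with h3 | h3 | h3
      · rw [h3] at h1
        exact absurd h1.2 h102
      · exact absurd h3 h1.1
      · exact h3
    have hj02 : e 0 j ∈ E2 := by
      refine Finset.mem_filter.2 ⟨mem_support_iff.2 hjf, ?_⟩
      simp
    have hc2 : 1 < (E2.erase (e 0 j)).card := by
      rw [Finset.card_erase_of_mem hj02]; omega
    obtain ⟨m, hm, m', hm', hne⟩ := Finset.one_lt_card.1 hc2
    have q1 := (Finset.mem_filter.1 (hsub hm)).2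
    have q1' := (Finset.mem_filter.1 (hsub hm')).2
    have q2 := (Finset.mem_filter.1 (Finset.mem_of_mem_erase hm)).2
    have q2' := (Finset.mem_filter.1 (Finset.mem_of_mem_erase hm')).2
    -- the two lines agree
    set u : ℤ := (m 0 : ℤ) - (m' 0 : ℤ) with hu
    set v : ℤ := (m 1 : ℤ) - (m' 1 : ℤ) with hv
    have l1 : (b : ℤ) * u + ((i : ℤ) - a) * v = 0 := by rw [hu, hv]; linarith
    have l2 : ((j : ℤ) - a') * u + (b' : ℤ) * v = 0 := by rw [hu, hv]; linarith
    have hdet : (b : ℤ) * b' = ((i : ℤ) - a) * ((j : ℤ) - a') := by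
      have d1 : ((b : ℤ) * b' - ((i : ℤ) - a) * ((j : ℤ) - a')) * u = 0 := by
        linear_combination (b' : ℤ) * l1 - ((i : ℤ) - a) * l2
      have d2 : ((b : ℤ) * b' - ((i : ℤ) - a) * ((j : ℤ) - a')) * v = 0 := by
        linear_combination (b : ℤ) * l2 - ((j : ℤ) - a') * l1
      rcases mul_eq_zero.1 d1 with h | h
      · linarith
      · rcases mul_eq_zero.1 d2 with h' | h'
        · linarith
        · exfalso
          apply hne
          rw [ext_iff']
          constructor <;> omega
    apply hcon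
    -- `(0, j)` satisfies the first equation
    have h5 : (b' : ℤ) * (((i : ℤ) - a) * j - b * i) = 0 := by
      linear_combination (b' : ℤ) * q1 - ((i : ℤ) - a) * q2 - (m 0 : ℤ) * hdet
    rcases mul_eq_zero.1 h5 with h | h
    · omega
    · linarith
  refine ⟨i, j, hi, hj, hif, hjf, ?_, ?_⟩
  · intro m hm
    have h1 := hle m hm
    have h2 : (b : ℤ) * ((j : ℤ) * (m 0 : ℤ) + (i : ℤ) * (m 1 : ℤ)) ≤ b * (i * j) := by
      have h3 := mul_le_mul_of_nonneg_left h1 (by linarith : (0 : ℤ) ≤ (j : ℤ))
      have h4 : (b : ℤ) * ((j : ℤ) * (m 0 : ℤ) + (i : ℤ) * (m 1 : ℤ)) =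
          (j : ℤ) * ((b : ℤ) * (m 0 : ℤ) + ((i : ℤ) - a) * (m 1 : ℤ)) := by
        linear_combination (-(m 1 : ℤ)) * key
      rw [h4]
      calc _ ≤ (j : ℤ) * (b * i) := h3
        _ = _ := by ring
    exact le_of_mul_le_mul_left h2 (by linarith)
  · refine h3.trans (Finset.card_le_card ?_)
    intro m hm
    have h1 := Finset.mem_filter.1 hm
    refine Finset.mem_filter.2 ⟨h1.1, ?_⟩
    have h4 : (b : ℤ) * ((j : ℤ) * (m 0 : ℤ) + (i : ℤ) * (m 1 : ℤ)) = b * (i * j) := by
      linear_combination (-(m 1 : ℤ)) * key + (j : ℤ) * h1.2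
    exact mul_left_cancel₀ (by linarith : (b : ℤ) ≠ 0) h4

end Pool.Agent.W443.J5
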