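import Mathlib
import Pool.Agent.W443.J5.Shape2

/-! The shape of a component with at most five nonconstant monomials, III. -/

set_option autoImplicit false

open MvPolynomial Pool.Agent.H938R2.JC

namespace Pool.Agent.W443.J5

universe u

variable {k : Type u} [Field k]

theorem monomial_e (a b : ℕ) (r : k) :
    (monomial (e a b) r : MvPolynomial (Fin 2) k) = C r * (X 0 ^ a * X 1 ^ b) := by
  rw [X_pow_eq_monomial, X_pow_eq_monomial, monomial_mul, C_mul_monomial]
  simp [e]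

theorem dh_part_coeff {w0 w1 d : ℤ} (hw0 : w0 ≠ 0) (f : MvPolynomial (Fin 2) k)
    (n : Fin 2 →₀ ℕ) (hn : w0 * (n 0 : ℤ) + w1 * (n 1 : ℤ) = d) :
    (dh (part w0 w1 d f)).coeff (n 1) = coeff n f := by
  classical
  have h1 : (dh (part w0 w1 d f)).coeff (n 1) =
      ∑ m ∈ f.support.filter (fun m => w0 * (m 0 : ℤ) + w1 * (m 1 : ℤ) = d),
        (if m 1 = n 1 then coeff m f else 0) := by
    unfold part
    rw [map_sum, Polynomial.finsetSum_coeff]
    apply Finset.sum_congr rfl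
    intro m _
    rw [dh_monomial, Polynomial.coeff_monomial]
  rw [h1, Finset.sum_eq_single n]
  · rw [if_pos rfl]
  · intro m' hm' hne
    rw [if_neg]
    intro heq
    apply hne
    have h3 := (Finset.mem_filter.1 hm').2
    rw [heq] at h3
    have h4 : w0 * ((m' 0 : ℤ) - (n 0 : ℤ)) = 0 := by linarith
    rcases mul_eq_zero.1 h4 with h5 | h5
    · exact absurd h5 hw0
    · rw [ext_iff']
      exact ⟨by omega, heq⟩
  · intro h
    rw [if_pos rfl]
    by_contra h2
    exact h (Finset.mem_filter.2 ⟨mem_support_iff.2 h2, hn⟩)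

theorem dh_part_exists {w0 w1 d : ℤ} (hw0 : w0 ≠ 0) (f : MvPolynomial (Fin 2) k) (v : ℕ)
    (hv : (dh (part w0 w1 d f)).coeff v ≠ 0) :
    ∃ n, coeff n f ≠ 0 ∧ w0 * (n 0 : ℤ) + w1 * (n 1 : ℤ) = d ∧ n 1 = v := by
  classical
  have h1 := Polynomial.mem_support_iff.2 hv
  rw [dh_part_support hw0, Finset.mem_image] at h1
  obtain ⟨n, hn, hnv⟩ := h1
  have := Finset.mem_filter.1 hn
  exact ⟨n, mem_support_iff.1 this.1, this.2, hnv⟩

variable [CharZero k]

/-- The shape. -/
theorem shape (hPOW : S_POW.{u}) (hUNI : S_UNI.{u}) {f g : MvPolynomial (Fin 2) k} {c : k}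
    (hJ : J f g = C c) (hc : c ≠ 0) (hng : ¬ Good f g) (hx : coeff (e 1 0) f ≠ 0)
    (hcard : (f.support.erase 0).card ≤ 5) :
    ∃ (κ l m : k) (p q a b : ℕ), κ ≠ 0 ∧ l ≠ 0 ∧ m ≠ 0 ∧ 1 ≤ p ∧ 1 ≤ q ∧
      q * a + p * b < 2 * p * q ∧ e a b ≠ 0 ∧ e a b ≠ e 1 0 ∧ coeff (e a b) f ≠ 0 ∧
      f = C (coeff 0 f) + C (coeff (e 1 0) f) * X 0 +
        C (coeff (e a b) f) * (X 0 ^ a * X 1 ^ b) + C κ * (C l * X 0 ^ p + C m * X 1 ^ q) ^ 2 := by
  classical
  obtain ⟨i, j, hi, hj, hif, hjf, hle, h3⟩ := single_edge hPOW hUNI hJ hc hng hx hcard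
  have hi1 : (2 : ℤ) ≤ (i : ℤ) := by exact_mod_cast hi
  have hj1 : (2 : ℤ) ≤ (j : ℤ) := by exact_mod_cast hj
  set E := f.support.filter
    (fun m => (j : ℤ) * (m 0 : ℤ) + (i : ℤ) * (m 1 : ℤ) = i * j) with hE
  have hmemE : ∀ n, n ∈ E ↔ coeff n f ≠ 0 ∧ (j : ℤ) * (n 0 : ℤ) + (i : ℤ) * (n 1 : ℤ) = i * j := by
    intro n; rw [hE, Finset.mem_filter, mem_support_iff]
  have h0E : (0 : Fin 2 →₀ ℕ) ∉ E := by
    intro h
    have h2 := ((hmemE _).1 h).2
    simp only [Finsupp.coe_zero, Pi.zero_apply, Nat.cast_zero, mul_zero, add_zero] at h2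
    nlinarith
  have h10E : e 1 0 ∉ E := by
    intro h
    have h2 := ((hmemE _).1 h).2
    simp only [e_zero, e_one, Nat.cast_one, Nat.cast_zero, mul_zero, add_zero, mul_one] at h2
    nlinarith
  have h10 : e 1 0 ≠ 0 := by
    intro h
    have := DFunLike.congr_fun h 0
    simp at this
  -- the additional monomial
  obtain ⟨M, hM0, hMf, hM1, hME⟩ : ∃ M, M ≠ 0 ∧ coeff M f ≠ 0 ∧ M ≠ e 1 0 ∧ M ∉ E := by
    by_contra hcon
    push Not at hcon
    apply hng
    apply two_int hJ hc (w0 := (j : ℤ)) (w1 := (i : ℤ)) (Or.inl (by omega)) (j : ℤ)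
      ((i : ℤ) * j) hx
    intro m hm hm0
    by_cases h1 : m = e 1 0
    · left
      rw [h1]
      simp
    · right
      exact ((hmemE m).1 (hcon m hm0 hm h1)).2
  have hsub : insert M (insert (e 1 0) E) ⊆ f.support.erase 0 := by
    intro n hn
    rw [Finset.mem_insert, Finset.mem_insert] at hn
    rw [Finset.mem_erase, mem_support_iff]
    rcases hn with rfl | rfl | hn
    · exact ⟨hM0, hMf⟩
    · exact ⟨h10, hx⟩
    · exact ⟨fun h => h0E (h ▸ hn), ((hmemE n).1 hn).1⟩
  have hMi : M ∉ insert (e 1 0) E := by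
    rw [Finset.mem_insert]
    rintro (h | h)
    · exact hM1 h
    · exact hME h
  have hci : (insert M (insert (e 1 0) E)).card = E.card + 2 := by
    rw [Finset.card_insert_of_notMem hMi, Finset.card_insert_of_notMem h10E]
  have hE3 : E.card = 3 := by
    have := Finset.card_le_card hsub
    omega
  have hTeq : insert M (insert (e 1 0) E) = f.support.erase 0 :=
    Finset.eq_of_subset_of_card_le hsub (by omega)
  -- the leading form
  obtain ⟨κ, R, s, hκ, hs, hpart⟩ := hPOW k f g c hJ hc hng j i (i * j)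
    (Or.inl (by omega)) hle ⟨e i 0, hif, by simp [mul_comm]⟩
  have hj0 : (j : ℤ) ≠ 0 := by omega
  have hφ := dh_pow hpart
  have hφc : (dh (part (j : ℤ) (i : ℤ) (i * j) f)).support.card = 3 := by
    rw [dh_part_card hj0]; exact hE3
  have hφ0 : (dh (part (j : ℤ) (i : ℤ) (i * j) f)).coeff 0 ≠ 0 := by
    have := dh_part_coeff hj0 f (e i 0) (w1 := (i : ℤ)) (d := i * j) (by simp [mul_comm])
    simp only [e_one] at this
    rw [this]; exact hif
  obtain ⟨l, m, q, hl, hm, hq, hsq⟩ := (hUNI k κ (dh R) s hκ hs).2 (by rw [← hφ]; exact hφc)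
    (by rw [← hφ]; exact hφ0)
  rw [← hφ] at hsq
  set φ := dh (part (j : ℤ) (i : ℤ) (i * j) f) with hφdef
  have hexp : φ = Polynomial.C (κ * l ^ 2) + Polynomial.C (2 * κ * l * m) * Polynomial.X ^ q +
      Polynomial.C (κ * m ^ 2) * Polynomial.X ^ (2 * q) := by
    rw [hsq]
    simp only [map_mul, map_pow, map_ofNat]
    ring
  have hcoef : ∀ v, φ.coeff v = (if v = 0 then κ * l ^ 2 else 0) +
      (if v = q then 2 * κ * l * m else 0) + (if v = 2 * q then κ * m ^ 2 else 0) := by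
    intro v
    rw [hexp]
    simp only [Polynomial.coeff_add, Polynomial.coeff_C, Polynomial.coeff_C_mul,
      Polynomial.coeff_X_pow, mul_ite, mul_one, mul_zero]
  have hc0 : φ.coeff 0 = κ * l ^ 2 := by
    rw [hcoef, if_pos rfl, if_neg (by omega), if_neg (by omega)]; ring
  have hcq : φ.coeff q = 2 * κ * l * m := by
    rw [hcoef, if_neg (by omega), if_pos rfl, if_neg (by omega)]; ring
  have hc2q : φ.coeff (2 * q) = κ * m ^ 2 := by
    rw [hcoef, if_neg (by omega), if_neg (by omega), if_pos rfl]; ring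
  have h2 : (2 : k) ≠ 0 := two_ne_zero
  obtain ⟨n1, hn1f, hn1w, hn1⟩ := dh_part_exists hj0 f q (w1 := (i : ℤ)) (d := i * j) (by
    rw [← hφdef, hcq]; exact mul_ne_zero (mul_ne_zero (mul_ne_zero h2 hκ) hl) hm)
  obtain ⟨n2, hn2f, hn2w, hn2⟩ := dh_part_exists hj0 f (2 * q) (w1 := (i : ℤ)) (d := i * j) (by
    rw [← hφdef, hc2q]; exact mul_ne_zero hκ (pow_ne_zero _ hm))
  have hj2q : j = 2 * q := by
    have h4 : 2 * q ≤ j := by
      rw [hn2] at hn2w
      have h5 : (i : ℤ) * ((2 * q : ℕ) : ℤ) ≤ i * j := by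
        have : (0 : ℤ) ≤ (j : ℤ) * (n2 0 : ℤ) := by positivity
        linarith
      have h6 := le_of_mul_le_mul_left h5 (by linarith : (0 : ℤ) < (i : ℤ))
      exact_mod_cast h6
    have h5 := dh_part_coeff hj0 f (e 0 j) (w1 := (i : ℤ)) (d := i * j) (by simp)
    simp only [e_one] at h5
    rw [← hφdef, hcoef] at h5
    by_contra hne
    rw [if_neg (by omega), if_neg (by omega), if_neg hne] at h5
    apply hjf
    rw [← h5]; ring
  have hqZ : (1 : ℤ) ≤ (q : ℤ) := by exact_mod_cast hq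
  have hi2p : i = 2 * n1 0 := by
    rw [hn1, hj2q] at hn1w
    push_cast at hn1w
    have h4 : (q : ℤ) * (i - 2 * (n1 0 : ℤ)) = 0 := by linarith
    rcases mul_eq_zero.1 h4 with h | h
    · omega
    · omega
  set p := n1 0 with hp
  have hn1e : n1 = e p q := by rw [ext_iff']; simp [hp, hn1]
  have hn1E : e p q ∈ E := (hmemE _).2 ⟨by rw [← hn1e]; exact hn1f, by rw [← hn1e]; exact hn1w⟩
  have hiE : e (2 * p) 0 ∈ E := (hmemE _).2 ⟨by rw [← hi2p]; exact hif, by
    rw [← hi2p]; simp [mul_comm]⟩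
  have hjE : e 0 (2 * q) ∈ E := (hmemE _).2 ⟨by rw [← hj2q]; exact hjf, by
    rw [← hj2q]; simp⟩
  have hp1 : 1 ≤ p := by omega
  have hd1 : e (2 * p) 0 ≠ e p q := by
    intro h; rw [e_inj] at h; omega
  have hd2 : e (2 * p) 0 ≠ e 0 (2 * q) := by
    intro h; rw [e_inj] at h; omega
  have hd3 : e p q ≠ e 0 (2 * q) := by
    intro h; rw [e_inj] at h; omega
  have hEeq : ({e (2 * p) 0, e p q, e 0 (2 * q)} : Finset (Fin 2 →₀ ℕ)) = E := by
    apply Finset.eq_of_subset_of_card_le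
    · intro n hn
      simp only [Finset.mem_insert, Finset.mem_singleton] at hn
      rcases hn with rfl | rfl | rfl
      · exact hiE
      · exact hn1E
      · exact hjE
    · rw [hE3, Finset.card_insert_of_notMem, Finset.card_pair hd3]
      simp [hd1, hd2]
  have hMe : M = e (M 0) (M 1) := eq_e M
  have hMlt : q * M 0 + p * M 1 < 2 * p * q := by
    have h4 := hle M hMf
    have h5 : ((j : ℤ) * (M 0 : ℤ) + (i : ℤ) * (M 1 : ℤ)) ≠ i * j := fun h =>
      hME ((hmemE M).2 ⟨hMf, h⟩)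
    have h6 := lt_of_le_of_ne h4 h5
    rw [hi2p, hj2q] at h6
    push_cast at h6
    have h7 : (q : ℤ) * (M 0 : ℤ) + p * (M 1 : ℤ) < 2 * p * q := by nlinarith
    exact_mod_cast h7
  have cf0 : coeff (e (2 * p) 0) f = κ * l ^ 2 := by
    have := dh_part_coeff hj0 f (e (2 * p) 0) (w1 := (i : ℤ)) (d := i * j)
      (by rw [← hi2p]; simp [mul_comm])
    simp only [e_one] at this
    rw [← this, ← hφdef, hc0]
  have cf1 : coeff (e p q) f = 2 * κ * l * m := by
    have := dh_part_coeff hj0 f (e p q) (w1 := (i : ℤ)) (d := i * j)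
      (by rw [← hn1e]; exact hn1w)
    simp only [e_one] at this
    rw [← this, ← hφdef, hcq]
  have cf2 : coeff (e 0 (2 * q)) f = κ * m ^ 2 := by
    have := dh_part_coeff hj0 f (e 0 (2 * q)) (w1 := (i : ℤ)) (d := i * j)
      (by rw [← hj2q]; simp)
    simp only [e_one] at this
    rw [← this, ← hφdef, hc2q]
  refine ⟨κ, l, m, p, q, M 0, M 1, hκ, hl, hm, hp1, hq, hMlt, by rw [← hMe]; exact hM0,
    by rw [← hMe]; exact hM1, by rw [← hMe]; exact hMf, ?_⟩
  have hsupp : f.support ⊆ insert 0 (insert M (insert (e 1 0)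
      ({e (2 * p) 0, e p q, e 0 (2 * q)} : Finset (Fin 2 →₀ ℕ)))) := by
    intro n hn
    by_cases h0 : n = 0
    · rw [h0]; exact Finset.mem_insert_self _ _
    · apply Finset.mem_insert_of_mem
      rw [hEeq, hTeq]
      exact Finset.mem_erase.2 ⟨h0, hn⟩
  have hf : f = ∑ n ∈ insert 0 (insert M (insert (e 1 0)
      ({e (2 * p) 0, e p q, e 0 (2 * q)} : Finset (Fin 2 →₀ ℕ)))), monomial n (coeff n f) := by
    conv_lhs => rw [f.as_sum]
    exact Finset.sum_subset hsupp (fun n _ hn => by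
      rw [notMem_support_iff.1 hn, monomial_zero])
  rw [Finset.sum_insert, Finset.sum_insert, Finset.sum_insert, Finset.sum_insert,
    Finset.sum_pair hd3, cf0, cf1, cf2, monomial_e, monomial_e, monomial_e, monomial_e] at hf
  · rw [← hMe]
    calc f = _ := hf
      _ = _ := by
        have hMm : (monomial M (coeff M f) : MvPolynomial (Fin 2) k) =
            C (coeff M f) * (X 0 ^ M 0 * X 1 ^ M 1) := by
          conv_lhs => rw [hMe]
          rw [monomial_e, ← hMe]
        rw [hMm, ← C_apply]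
        simp only [C_mul, C_pow, pow_one, pow_zero, mul_one, one_mul]
        have h22 : (C (2 : k) : MvPolynomial (Fin 2) k) = 2 := map_ofNat C 2
        rw [h22]
        ring
  · simp [hd1, hd2]
  · rw [hEeq]; exact h10E
  · rw [hEeq]; exact hMi
  · rw [hEeq, Finset.mem_insert, Finset.mem_insert]
    rintro (h | h | h)
    · exact hM0 h.symm
    · exact h10 h.symm
    · exact h0E h

end Pool.Agent.W443.J5
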