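import Mathlib
import Pool.Agent.W443.J5.Shape3
import Pool.Agent.H928R2.ThreeMain

/-! Critical points and the final step. -/

set_option autoImplicit false

open MvPolynomial Pool.Agent.H938R2.JC

namespace Pool.Agent.W443.J5

universe u

variable {k : Type u} [Field k]

theorem crit {f g : MvPolynomial (Fin 2) k} {c : k} (hJ : J f g = C c) {K : Type u} [Field K]
    [Algebra k K] (pt : Fin 2 → K) (h0 : aeval pt (pderiv 0 f) = 0)
    (h1 : aeval pt (pderiv 1 f) = 0) : c = 0 := by
  have h := congrArg (aeval pt) hJ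
  unfold J at h
  rw [map_sub, map_mul, map_mul, h0, h1, zero_mul, zero_mul, sub_zero, algHom_C] at h
  exact ((map_eq_zero (algebraMap k K)).1 h.symm)

theorem dx {K : Type u} [Field K] [Algebra k K] (A α γ κ l m : k) (p q a b : ℕ) (x y : K) :
    aeval (![x, y] : Fin 2 → K) (pderiv 0 (C A + C α * X 0 + C γ * (X 0 ^ a * X 1 ^ b) +
      C κ * (C l * X 0 ^ p + C m * X 1 ^ q) ^ 2 : MvPolynomial (Fin 2) k)) =
    algebraMap k K α + algebraMap k K γ * (a * x ^ (a - 1) * y ^ b) +
      2 * algebraMap k K κ * algebraMap k K l * p * x ^ (p - 1) *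
        (algebraMap k K l * x ^ p + algebraMap k K m * y ^ q) := by
  have h01 : pderiv (R := k) (0 : Fin 2) (X 1) = 0 := pderiv_X_of_ne (by decide)
  simp only [map_add, Derivation.leibniz, Derivation.leibniz_pow, pderiv_C, pderiv_X_self, h01,
    smul_eq_mul, nsmul_eq_mul, map_mul, map_pow, aeval_X, algHom_C, map_natCast, map_zero, map_one,
    mul_zero, add_zero, zero_add, mul_one, Matrix.cons_val_zero, Matrix.cons_val_one,
    Matrix.cons_val_fin_one, smul_zero]
  push_cast
  ring

theorem dy {K : Type u} [Field K] [Algebra k K] (A α γ κ l m : k) (p q a b : ℕ) (x y : K) :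
    aeval (![x, y] : Fin 2 → K) (pderiv 1 (C A + C α * X 0 + C γ * (X 0 ^ a * X 1 ^ b) +
      C κ * (C l * X 0 ^ p + C m * X 1 ^ q) ^ 2 : MvPolynomial (Fin 2) k)) =
    algebraMap k K γ * (b * x ^ a * y ^ (b - 1)) +
      2 * algebraMap k K κ * algebraMap k K m * q * y ^ (q - 1) *
        (algebraMap k K l * x ^ p + algebraMap k K m * y ^ q) := by
  have h10 : pderiv (R := k) (1 : Fin 2) (X 0) = 0 := pderiv_X_of_ne (by decide)
  simp only [map_add, Derivation.leibniz, Derivation.leibniz_pow, pderiv_C, pderiv_X_self, h10,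
    smul_eq_mul, nsmul_eq_mul, map_mul, map_pow, aeval_X, algHom_C, map_natCast, map_zero, map_one,
    mul_zero, add_zero, zero_add, mul_one, Matrix.cons_val_zero, Matrix.cons_val_one,
    Matrix.cons_val_fin_one, smul_zero]
  push_cast
  ring

variable [CharZero k]

theorem one_x (hPOW : S_POW.{u}) (hUNI : S_UNI.{u}) (hC2 : S_C2.{u}) (hC3 : S_C3.{u})
    {f g : MvPolynomial (Fin 2) k} {c : k} (hJ : J f g = C c) (hc : c ≠ 0)
    (hx : coeff (e 1 0) f ≠ 0) (hcard : (f.support.erase 0).card ≤ 5) : Good f g := by
  classical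
  by_contra hng
  obtain ⟨κ, l, m, p, q, a, b, hκ, hl, hm, hp, hq, hlt, hM0, hM1, hγ, hf⟩ :=
    shape hPOW hUNI hJ hc hng hx hcard
  have hsupp : ∀ s, coeff s f ≠ 0 → s ≠ 0 →
      s = e 1 0 ∨ s = e a b ∨ s = e (2 * p) 0 ∨ s = e p q ∨ s = e 0 (2 * q) := by
    intro s hs hs0
    by_contra hcon
    push Not at hcon
    obtain ⟨c1, c2, c3, c4, c5⟩ := hcon
    apply hs
    have h22 : (2 : MvPolynomial (Fin 2) k) = C 2 := (map_ofNat C 2).symm
    have hf2 : f = monomial 0 (coeff 0 f) + monomial (e 1 0) (coeff (e 1 0) f) +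
        monomial (e a b) (coeff (e a b) f) + (monomial (e (2 * p) 0) (κ * l ^ 2) +
          monomial (e p q) (2 * κ * l * m) + monomial (e 0 (2 * q)) (κ * m ^ 2)) := by
      calc f = _ := hf
        _ = _ := by
          simp only [monomial_e, ← C_apply, C_mul, C_pow, ← h22]
          ring
    rw [hf2]
    simp only [coeff_add, coeff_monomial]
    rw [if_neg (Ne.symm hs0), if_neg (Ne.symm c1), if_neg (Ne.symm c2), if_neg (Ne.symm c3),
      if_neg (Ne.symm c4), if_neg (Ne.symm c5)]
    ring
  -- weights (1, p) when q = 1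
  rcases Nat.lt_or_ge q 2 with hq2 | hq2
  · have hq1 : q = 1 := by omega
    subst hq1
    apply hng
    apply Pool.Agent.H928R2.Three.three_pieces hJ hc (m := p) (a + p * b) (2 * p) hp (Or.inr hx)
    intro s hs hs0
    rcases hsupp s hs hs0 with rfl | rfl | rfl | rfl | rfl
    · left; simp
    · right; left; simp
    · right; right; simp
    · right; right; simp; ring
    · right; right; simp; ring
  by_cases hpq : p = q
  · subst hpq
    apply hng
    apply Pool.Agent.H928R2.Three.three_pieces hJ hc (m := 1) (a + b) (2 * p) one_pos (Or.inr hx)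
    intro s hs hs0
    rcases hsupp s hs hs0 with rfl | rfl | rfl | rfl | rfl
    · left; simp
    · right; left; simp
    · right; right; simp
    · right; right; simp; ring
    · right; right; simp
  -- critical points
  let K := AlgebraicClosure k
  have hinj : Function.Injective (algebraMap k K) := (algebraMap k K).injective
  haveI : CharZero K := charZero_of_injective_algebraMap hinj
  have hne : ∀ r : k, r ≠ 0 → algebraMap k K r ≠ 0 := fun r hr =>
    (map_ne_zero_iff (algebraMap k K) hinj).2 hr
  have hcrit : ∀ x y : K, algebraMap k K (coeff (e 1 0) f) +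
      algebraMap k K (coeff (e a b) f) * (a * x ^ (a - 1) * y ^ b) +
      2 * algebraMap k K κ * algebraMap k K l * p * x ^ (p - 1) *
        (algebraMap k K l * x ^ p + algebraMap k K m * y ^ q) = 0 →
      algebraMap k K (coeff (e a b) f) * (b * x ^ a * y ^ (b - 1)) +
      2 * algebraMap k K κ * algebraMap k K m * q * y ^ (q - 1) *
        (algebraMap k K l * x ^ p + algebraMap k K m * y ^ q) = 0 → False := by
    intro x y h0 h1
    apply hc
    apply crit (K := K) hJ ![x, y]
    · rw [hf, dx]
      exact h0
    · rw [hf, dy]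
      exact h1
  rcases Nat.lt_trichotomy b 1 with hb | hb | hb
  · -- b = 0
    have hb0 : b = 0 := by omega
    subst hb0
    have ha2 : 2 ≤ a := by
      by_contra hcon
      interval_cases a
      · exact hM0 (by simp [e])
      · exact hM1 rfl
    have ha2p : a < 2 * p := by
      have h1 : q * a < q * (2 * p) := by
        calc q * a = q * a + p * 0 := by ring
          _ < 2 * p * q := hlt
          _ = _ := by ring
      exact Nat.lt_of_mul_lt_mul_left h1
    set P : Polynomial K := Polynomial.C (algebraMap k K (coeff (e 1 0) f)) +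
      Polynomial.C (algebraMap k K (coeff (e a 0) f) * a) * Polynomial.X ^ (a - 1) +
      Polynomial.C (2 * algebraMap k K κ * (algebraMap k K l) ^ 2 * p) *
        Polynomial.X ^ (2 * p - 1) with hP
    have hdeg : P.degree ≠ 0 := by
      intro h
      have h1 : P.coeff (2 * p - 1) = 0 := by
        apply Polynomial.coeff_eq_zero_of_degree_lt
        rw [h]
        have : 0 < 2 * p - 1 := by omega
        exact_mod_cast this
      rw [hP] at h1
      simp only [Polynomial.coeff_add, Polynomial.coeff_C, Polynomial.coeff_C_mul,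
        Polynomial.coeff_X_pow] at h1
      rw [if_neg (by omega), if_neg (by omega), if_pos trivial] at h1
      have h2 : 2 * algebraMap k K κ * (algebraMap k K l) ^ 2 * p ≠ 0 :=
        mul_ne_zero (mul_ne_zero (mul_ne_zero two_ne_zero (hne κ hκ)) (pow_ne_zero _ (hne l hl)))
          (by exact_mod_cast (by omega : p ≠ 0))
      apply h2
      linear_combination h1
    obtain ⟨x, hxr⟩ := IsAlgClosed.exists_root P hdeg
    refine hcrit x 0 ?_ ?_
    · have h1 : Polynomial.eval x P = 0 := hxr
      rw [hP] at h1
      simp only [Polynomial.eval_add, Polynomial.eval_C, Polynomial.eval_mul,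
        Polynomial.eval_pow, Polynomial.eval_X] at h1
      have h2 : x ^ (2 * p - 1) = x ^ (p - 1) * x ^ p := by
        rw [← pow_add]; congr 1; omega
      rw [h2] at h1
      rw [zero_pow (by omega : q ≠ 0), pow_zero]
      linear_combination h1
    · rw [zero_pow (by omega : q - 1 ≠ 0)]
      simp
  · -- b = 1
    subst hb
    rcases Nat.eq_zero_or_pos a with ha | ha
    · subst ha
      obtain ⟨x, y, h0, h1⟩ := hC2 K (algebraMap k K (coeff (e 1 0) f))
        (algebraMap k K (coeff (e 0 1) f)) (algebraMap k K κ) (algebraMap k K l)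
        (algebraMap k K m) p q (hne _ hx) (hne _ hγ) (hne _ hκ) (hne _ hl) (hne _ hm) hp hq2 hpq
      refine hcrit x y ?_ ?_
      · linear_combination h0
      · linear_combination h1
    · obtain ⟨x, y, h0, h1⟩ := hC3 K (algebraMap k K (coeff (e 1 0) f))
        (algebraMap k K (coeff (e a 1) f)) (algebraMap k K κ) (algebraMap k K l)
        (algebraMap k K m) a p q (hne _ hx) (hne _ hγ) (hne _ hκ) (hne _ hl) (hne _ hm) ha hp hq2
        (by rw [mul_one] at hlt; exact hlt)
      refine hcrit x y ?_ ?_
      · linear_combination h0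
      · linear_combination h1
  · -- b ≥ 2
    set P : Polynomial K := Polynomial.C (algebraMap k K (coeff (e 1 0) f)) +
      Polynomial.C (2 * algebraMap k K κ * (algebraMap k K l) ^ 2 * p) *
        Polynomial.X ^ (2 * p - 1) with hP
    have hdeg : P.degree ≠ 0 := by
      intro h
      have h1 : P.coeff (2 * p - 1) = 0 := by
        apply Polynomial.coeff_eq_zero_of_degree_lt
        rw [h]
        have : 0 < 2 * p - 1 := by omega
        exact_mod_cast this
      rw [hP] at h1
      simp only [Polynomial.coeff_add, Polynomial.coeff_C, Polynomial.coeff_C_mul,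
        Polynomial.coeff_X_pow] at h1
      rw [if_neg (by omega), if_pos trivial] at h1
      have h2 : 2 * algebraMap k K κ * (algebraMap k K l) ^ 2 * p ≠ 0 :=
        mul_ne_zero (mul_ne_zero (mul_ne_zero two_ne_zero (hne κ hκ)) (pow_ne_zero _ (hne l hl)))
          (by exact_mod_cast (by omega : p ≠ 0))
      apply h2
      linear_combination h1
    obtain ⟨x, hxr⟩ := IsAlgClosed.exists_root P hdeg
    refine hcrit x 0 ?_ ?_
    · have h1 : Polynomial.eval x P = 0 := hxr
      rw [hP] at h1
      simp only [Polynomial.eval_add, Polynomial.eval_C, Polynomial.eval_mul,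
        Polynomial.eval_pow, Polynomial.eval_X] at h1
      have h2 : x ^ (2 * p - 1) = x ^ (p - 1) * x ^ p := by
        rw [← pow_add]; congr 1; omega
      rw [h2] at h1
      rw [zero_pow (by omega : q ≠ 0), zero_pow (by omega : b ≠ 0)]
      linear_combination h1
    · rw [zero_pow (by omega : q - 1 ≠ 0), zero_pow (by omega : b - 1 ≠ 0)]
      simp

/-- Some linear monomial occurs. -/
theorem linear_occurs {f g : MvPolynomial (Fin 2) k} {c : k} (hJ : J f g = C c) (hc : c ≠ 0) :
    coeff (e 1 0) f ≠ 0 ∨ coeff (e 0 1) f ≠ 0 := by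
  by_contra hcon
  push Not at hcon
  have h1 := congrArg (coeff 0) hJ
  apply hc
  unfold J at h1
  rw [coeff_C, if_pos rfl] at h1
  have hz : ∀ (i : Fin 2), coeff 0 (pderiv i f) = 0 := by
    intro i
    rw [coeff_pderiv]
    fin_cases i
    · have : (0 : Fin 2 →₀ ℕ) + Finsupp.single 0 1 = e 1 0 := by simp [e]
      simp only [Fin.zero_eta]
      rw [this, hcon.1, zero_mul]
    · have : (0 : Fin 2 →₀ ℕ) + Finsupp.single 1 1 = e 0 1 := by simp [e]
      simp only [Fin.mk_one]
      rw [this, hcon.2, zero_mul]
  rw [coeff_sub] at h1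
  have hm : ∀ A B : MvPolynomial (Fin 2) k, coeff 0 (A * B) = coeff 0 A * coeff 0 B := by
    intro A B
    simp only [← constantCoeff_eq, map_mul]
  rw [hm, hm, hz, hz, zero_mul, zero_mul, sub_zero] at h1
  exact h1.symm

/-- The theorem for the first component of the pair. -/
theorem five (hPOW : S_POW.{u}) (hUNI : S_UNI.{u}) (hC2 : S_C2.{u}) (hC3 : S_C3.{u})
    {f g : MvPolynomial (Fin 2) k} {c : k} (hJ : J f g = C c) (hc : c ≠ 0)
    (hcard : (f.support.erase 0).card ≤ 5) : Good f g := by
  classical
  rcases linear_occurs hJ hc with hx | hy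
  · exact one_x hPOW hUNI hC2 hC3 hJ hc hx hcard
  · apply Good.of_equiv sw
    apply one_x hPOW hUNI hC2 hC3 (J_sw_C hJ) (neg_ne_zero.2 hc)
    · rw [coeff_sw]; exact hy
    · refine le_trans ?_ hcard
      refine Finset.card_le_card_of_injOn (fun m => e (m 1) (m 0)) ?_ ?_
      · intro m hm
        have hm' := Finset.mem_erase.1 (Finset.mem_coe.1 hm)
        refine Finset.mem_coe.2 (Finset.mem_erase.2 ⟨?_, ?_⟩)
        · intro h
          apply hm'.1
          rw [ext_iff']
          have h1 := DFunLike.congr_fun h 0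
          have h2 := DFunLike.congr_fun h 1
          simp only [e_zero, e_one, Finsupp.coe_zero, Pi.zero_apply] at h1 h2
          exact ⟨h2, h1⟩
        · rw [mem_support_iff, ← coeff_sw, ← eq_e]
          exact mem_support_iff.1 hm'.2
      · intro m _ m' _ h
        rw [e_inj] at h
        rw [ext_iff']
        exact ⟨h.2, h.1⟩

end Pool.Agent.W443.J5
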